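import Pool.Agent.Helper76.FT.GoalsA

/-!
# MP_39e2b7_an, packet FT-UNIQ: the energy identity
-/

set_option autoImplicit false

namespace Pool.Agent.Helper94.FT

open Complex Set MeasureTheory Filter Topology Pool.Agent.Helper76.FT
open scoped Interval ComplexConjugate

/-- a compact neighbourhood of `[0, 1]` in the strip -/
def KK (r : ℝ) : Set ℂ := {z | |z.im| ≤ r} ∩ Metric.closedBall 0 (1 + r)

theorem KK_compact (r : ℝ) : IsCompact (KK r) := by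
  have h : IsClosed {z : ℂ | |z.im| ≤ r} :=
    isClosed_le (continuous_abs.comp Complex.continuous_im) continuous_const
  exact (isCompact_closedBall (0:ℂ) (1 + r)).inter_left h

theorem KK_sub {r ρ : ℝ} (h : r < ρ) : KK r ⊆ Str ρ := fun _ hz => lt_of_le_of_lt hz.1 h

theorem ball_sub {r x : ℝ} (hx : x ∈ Icc (0:ℝ) 1) : Metric.closedBall (x : ℂ) r ⊆ KK r := by
  intro z hz
  rw [Metric.mem_closedBall, dist_eq_norm] at hz
  refine ⟨?_, ?_⟩
  · have h1 : |(z - x).im| ≤ ‖z - x‖ := Complex.abs_im_le_norm _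
    have h2 : (z - (x:ℂ)).im = z.im := by simp
    rw [h2] at h1
    exact le_trans h1 hz
  · rw [mem_closedBall_zero_iff]
    have h1 : ‖(x:ℂ)‖ ≤ 1 := by
      rw [Complex.norm_real, Real.norm_eq_abs, abs_of_nonneg hx.1]; exact hx.2
    calc ‖z‖ = ‖(x:ℂ) + (z - x)‖ := by ring_nf
      _ ≤ ‖(x:ℂ)‖ + ‖z - x‖ := norm_add_le _ _
      _ ≤ 1 + r := add_le_add h1 hz

theorem real_mem_Str {ρ : ℝ} (h : 0 < ρ) (x : ℝ) : (x : ℂ) ∈ Str ρ := by
  show |((x:ℂ)).im| < ρ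
  simpa using h

theorem isOpen_Str (ρ : ℝ) : IsOpen (Str ρ) :=
  isOpen_lt (continuous_abs.comp Complex.continuous_im) continuous_const

variable {φ w : ℂ → ℝ → ℂ} {ρ τ : ℝ} {e : ℂ}

/-- derivative estimate -/
theorem deriv_bd {f : ℂ → ℂ} {ρ r C x : ℝ} (hr : 0 < r) (hrρ : r < ρ)
    (hf : DifferentiableOn ℂ f (Str ρ)) (hx : x ∈ Icc (0:ℝ) 1)
    (hC : ∀ z ∈ KK r, ‖f z‖ ≤ C) : ‖deriv f (x : ℂ)‖ ≤ C / r := by
  refine Complex.norm_deriv_le_of_forall_mem_sphere_norm_le hr ?_ ?_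
  · refine DifferentiableOn.diffContOnCl ?_
    refine hf.mono ?_
    rw [closure_ball _ hr.ne']
    exact (ball_sub hx).trans (KK_sub hrρ)
  · intro z hz
    exact hC z (ball_sub hx (Metric.sphere_subset_closedBall hz))

theorem hasDerivAt_z (h : SH φ ρ) {z : ℂ} (hz : z ∈ Str ρ) {t : ℝ} (ht : t ∈ Icc (0:ℝ) 1) :
    HasDerivAt (fun z' => φ z' t) (dz φ z t) z :=
  ((h.hol t ht).differentiableAt ((isOpen_Str ρ).mem_nhds hz)).hasDerivAt

theorem hasDerivAt_x (hρ : 0 < ρ) (h : SH φ ρ) (x : ℝ) {t : ℝ} (ht : t ∈ Icc (0:ℝ) 1) :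
    HasDerivAt (fun x' : ℝ => φ (x' : ℂ) t) (dz φ (x:ℂ) t) x :=
  (hasDerivAt_z h (real_mem_Str hρ x) ht).comp_ofReal

theorem cont_x (hρ : 0 < ρ) (h : SH φ ρ) {t : ℝ} (ht : t ∈ Icc (0:ℝ) 1) :
    Continuous (fun x' : ℝ => φ (x' : ℂ) t) :=
  continuous_iff_continuousAt.2 fun x => (hasDerivAt_x hρ h x ht).continuousAt

theorem cont_dz (hρ : 0 < ρ) (h : SH φ ρ) {t : ℝ} (ht : t ∈ Icc (0:ℝ) 1) :
    Continuous (fun x' : ℝ => dz φ (x' : ℂ) t) := by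
  have h1 : ContinuousOn (deriv (fun z' => φ z' t)) (Str ρ) :=
    ((h.hol t ht).deriv (isOpen_Str ρ)).continuousOn
  have h2 : Continuous (fun x : ℝ => (x : ℂ)) := Complex.continuous_ofReal
  exact h1.comp_continuous h2 (fun x => real_mem_Str hρ x)

theorem per_dz (h : SH φ ρ) {z : ℂ} (hz : z ∈ Str ρ) {t : ℝ} (ht : t ∈ Icc (0:ℝ) 1) :
    dz φ (z + 1) t = dz φ z t := by
  unfold dz
  have h1 : (fun z' => φ (z' + 1) t) =ᶠ[𝓝 z] (fun z' => φ z' t) := by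
    filter_upwards [(isOpen_Str ρ).mem_nhds hz] with z' hz'
    exact h.per z' hz' t ht
  rw [← h1.deriv_eq, deriv_comp_add_const (f := fun z' => φ z' t)]

/-- bound for `φ` and `φ_z` -/
theorem exists_bd (hρ : 0 < ρ) (h : SH φ ρ) : ∃ M : ℝ, 0 ≤ M ∧
    (∀ z ∈ KK (ρ / 2), ∀ t ∈ Icc (0:ℝ) 1, ‖φ z t‖ ≤ M) := by
  have hc : IsCompact (KK (ρ / 2) ×ˢ Icc (0:ℝ) 1) := (KK_compact _).prod isCompact_Icc
  have hcont : ContinuousOn (fun q : ℂ × ℝ => φ q.1 q.2) (KK (ρ / 2) ×ˢ Icc (0:ℝ) 1) :=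
    h.cont.mono (prod_mono (KK_sub (by linarith)) subset_rfl)
  obtain ⟨M, hM⟩ := hc.exists_bound_of_continuousOn hcont
  refine ⟨max M 0, le_max_right _ _, fun z hz t ht => ?_⟩
  exact (hM (z, t) ⟨hz, ht⟩).trans (le_max_left _ _)

/-- `φ_z` is continuous in time, uniformly for `x ∈ [0, 1]` -/
theorem tendsto_dz (hρ : 0 < ρ) (h : SH φ ρ) {s : ℝ} (hs : s ∈ Icc (0:ℝ) 1) {x : ℝ}
    (hx : x ∈ Icc (0:ℝ) 1) :
    Tendsto (fun t => dz φ (x:ℂ) t) (𝓝[Icc (0:ℝ) 1] s) (𝓝 (dz φ (x:ℂ) s)) := by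
  rw [Metric.tendsto_nhds]
  intro ε hε
  have hr : 0 < ρ / 2 := by linarith
  have hcont : ContinuousOn (Function.uncurry (fun (t : ℝ) (z : ℂ) => φ z t))
      (Icc (0:ℝ) 1 ×ˢ KK (ρ / 2)) := by
    have h1 : ContinuousOn (fun q : ℂ × ℝ => φ q.1 q.2) (KK (ρ / 2) ×ˢ Icc (0:ℝ) 1) :=
      h.cont.mono (prod_mono (KK_sub (by linarith)) subset_rfl)
    refine h1.comp (f := Prod.swap) continuous_swap.continuousOn ?_
    rintro ⟨t, z⟩ ⟨ht, hz⟩
    exact ⟨hz, ht⟩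
  have hε' : 0 < ε * (ρ / 2) / 2 := by positivity
  obtain ⟨v, hv, hv2⟩ := (KK_compact (ρ / 2)).mem_uniformity_of_prod hcont hs
    (Metric.dist_mem_uniformity hε')
  filter_upwards [hv, self_mem_nhdsWithin] with t ht ht1
  have h2 : ∀ z ∈ KK (ρ / 2), ‖(fun z => φ z t - φ z s) z‖ ≤ ε * (ρ / 2) / 2 := by
    intro z hz
    have := hv2 t ht z hz
    rw [mem_ofPred_eq, dist_eq_norm] at this
    exact this.le
  have h3 := deriv_bd (f := fun z => φ z t - φ z s) hr (by linarith : ρ / 2 < ρ)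
    ((h.hol t ht1).sub (h.hol s hs)) hx h2
  have h4 : deriv (fun z => φ z t - φ z s) (x:ℂ) = dz φ (x:ℂ) t - dz φ (x:ℂ) s :=
    ((hasDerivAt_z h (real_mem_Str hρ x) ht1).sub (hasDerivAt_z h (real_mem_Str hρ x) hs)).deriv
  rw [h4] at h3
  rw [dist_eq_norm]
  calc ‖dz φ (x:ℂ) t - dz φ (x:ℂ) s‖ ≤ ε * (ρ / 2) / 2 / (ρ / 2) := h3
    _ = ε / 2 := by field_simp
    _ < ε := by linarith

/-- the functional `Q(t) = ∫ φ conj φ_x` -/
noncomputable def QQ (φ : ℂ → ℝ → ℂ) (t : ℝ) : ℂ :=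
  ∫ x in (0:ℝ)..1, φ (x : ℂ) t * conj (dz φ (x : ℂ) t)

theorem QQ_sub (hρ : 0 < ρ) (h : SH φ ρ) {s t : ℝ} (hs : s ∈ Icc (0:ℝ) 1)
    (ht : t ∈ Icc (0:ℝ) 1) :
    QQ φ t - QQ φ s = ∫ x in (0:ℝ)..1, ((φ (x:ℂ) t - φ (x:ℂ) s) * conj (dz φ (x:ℂ) t)
      - dz φ (x:ℂ) s * conj (φ (x:ℂ) t - φ (x:ℂ) s)) := by
  have c1 := cont_x hρ h ht
  have c2 := cont_x hρ h hs
  have c3 := cont_dz hρ h ht
  have c4 := cont_dz hρ h hs
  have hcc : Continuous (fun z : ℂ => conj z) := Complex.continuous_conj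
  have hpt : ∀ u ∈ Icc (0:ℝ) 1, φ ((1:ℝ):ℂ) u = φ ((0:ℝ):ℂ) u := by
    intro u hu
    have := h.per ((0:ℝ):ℂ) (real_mem_Str hρ 0) u hu
    rw [← this]; norm_num
  have hip := intervalIntegral.integral_mul_deriv_eq_deriv_mul
    (a := 0) (b := 1) (u := fun x : ℝ => φ (x:ℂ) s)
    (v := fun x : ℝ => conj (φ (x:ℂ) t - φ (x:ℂ) s))
    (u' := fun x : ℝ => dz φ (x:ℂ) s)
    (v' := fun x : ℝ => conj (dz φ (x:ℂ) t - dz φ (x:ℂ) s))
    (fun x _ => hasDerivAt_x hρ h x hs)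
    (fun x _ => by
      have := ((hasDerivAt_x hρ h x ht).sub (hasDerivAt_x hρ h x hs)).star
      exact this)
    (c4.intervalIntegrable _ _)
    ((hcc.comp (c3.sub c4)).intervalIntegrable _ _)
  rw [hpt s hs, hpt t ht, sub_self, zero_sub] at hip
  have i1 : IntervalIntegrable (fun x : ℝ => φ (x:ℂ) t * conj (dz φ (x:ℂ) t)) volume 0 1 :=
    (c1.mul (hcc.comp c3)).intervalIntegrable _ _
  have i2 : IntervalIntegrable (fun x : ℝ => φ (x:ℂ) s * conj (dz φ (x:ℂ) s)) volume 0 1 :=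
    (c2.mul (hcc.comp c4)).intervalIntegrable _ _
  have i3 : IntervalIntegrable (fun x : ℝ => (φ (x:ℂ) t - φ (x:ℂ) s) * conj (dz φ (x:ℂ) t))
      volume 0 1 := ((c1.sub c2).mul (hcc.comp c3)).intervalIntegrable _ _
  have i4 : IntervalIntegrable (fun x : ℝ => dz φ (x:ℂ) s * conj (φ (x:ℂ) t - φ (x:ℂ) s))
      volume 0 1 := (c4.mul (hcc.comp (c1.sub c2))).intervalIntegrable _ _
  have i5 : IntervalIntegrable
      (fun x : ℝ => φ (x:ℂ) s * conj (dz φ (x:ℂ) t - dz φ (x:ℂ) s)) volume 0 1 :=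
    (c2.mul (hcc.comp (c3.sub c4))).intervalIntegrable _ _
  unfold QQ
  rw [← intervalIntegral.integral_sub i1 i2, intervalIntegral.integral_sub i3 i4,
    sub_eq_add_neg (∫ x in (0:ℝ)..1, (φ (x:ℂ) t - φ (x:ℂ) s) * conj (dz φ (x:ℂ) t)), ← hip,
    ← intervalIntegral.integral_add i3 i5]
  refine intervalIntegral.integral_congr fun x _ => ?_
  simp only [map_sub]
  ring


/-- the time derivative of `φ` -/
noncomputable def DD (φ w : ℂ → ℝ → ℂ) (e : ℂ) (τ : ℝ) (z : ℂ) (t : ℝ) : ℂ :=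
  (0 - w z t * dz φ z t - e) / τ

theorem QQ_deriv (hρ : 0 < ρ) (hτ : 0 < τ) (hw : SH w ρ)
    (h : LSol φ w (fun _ _ => 0) e τ ρ) {s : ℝ} (hs : s ∈ Icc (0:ℝ) 1) :
    HasDerivWithinAt (QQ φ) (∫ x in (0:ℝ)..1,
      (DD φ w e τ (x:ℂ) s * conj (dz φ (x:ℂ) s) - dz φ (x:ℂ) s * conj (DD φ w e τ (x:ℂ) s)))
      (Icc (0:ℝ) 1) s := by
  obtain ⟨M, hM0, hM⟩ := exists_bd hρ h.sh
  obtain ⟨W, hW0, hW⟩ := exists_bd hρ hw
  have hr : 0 < ρ / 2 := by linarith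
  have hz : ∀ x ∈ Icc (0:ℝ) 1, ∀ t ∈ Icc (0:ℝ) 1, ‖dz φ (x:ℂ) t‖ ≤ M / (ρ / 2) := by
    intro x hx t ht
    exact deriv_bd (f := fun z => φ z t) hr (by linarith) (h.sh.hol t ht) hx
      (fun z hz => hM z hz t ht)
  have hWx : ∀ x ∈ Icc (0:ℝ) 1, ∀ t ∈ Icc (0:ℝ) 1, ‖w (x:ℂ) t‖ ≤ W := by
    intro x hx t ht
    exact hW _ (ball_sub hx (Metric.mem_closedBall_self hr.le)) t ht
  set B := (W * (M / (ρ / 2)) + ‖e‖) / τ with hB
  have hB0 : 0 ≤ B := by positivity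
  have hD : ∀ x ∈ Icc (0:ℝ) 1, ∀ t ∈ Icc (0:ℝ) 1, ‖DD φ w e τ (x:ℂ) t‖ ≤ B := by
    intro x hx t ht
    unfold DD
    rw [norm_div, Complex.norm_real, Real.norm_eq_abs, abs_of_pos hτ, hB]
    refine div_le_div_of_nonneg_right ?_ hτ.le
    calc ‖0 - w (x:ℂ) t * dz φ (x:ℂ) t - e‖ ≤ ‖0 - w (x:ℂ) t * dz φ (x:ℂ) t‖ + ‖e‖ :=
          norm_sub_le _ _
      _ = ‖w (x:ℂ) t‖ * ‖dz φ (x:ℂ) t‖ + ‖e‖ := by rw [zero_sub, norm_neg, norm_mul]
      _ ≤ W * (M / (ρ / 2)) + ‖e‖ := by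
          gcongr
          · exact hWx x hx t ht
          · exact hz x hx t ht
  have hder : ∀ x ∈ Icc (0:ℝ) 1, ∀ t ∈ Icc (0:ℝ) 1,
      HasDerivWithinAt (fun u => φ (x:ℂ) u) (DD φ w e τ (x:ℂ) t) (Icc (0:ℝ) 1) t := by
    intro x hx t ht
    exact h.eq _ (real_mem_Str hρ x) t ht
  rw [hasDerivWithinAt_iff_tendsto_slope]
  have hcc : Continuous (fun z : ℂ => conj z) := Complex.continuous_conj
  -- the difference quotient as an integral
  have hev : ∀ᶠ t in 𝓝[Icc (0:ℝ) 1 \ {s}] s, (∫ x in (0:ℝ)..1,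
      (slope (fun u => φ (x:ℂ) u) s t * conj (dz φ (x:ℂ) t)
        - dz φ (x:ℂ) s * conj (slope (fun u => φ (x:ℂ) u) s t))) = slope (QQ φ) s t := by
    filter_upwards [self_mem_nhdsWithin] with t ht
    rw [slope_def_module (QQ φ), QQ_sub hρ h.sh hs ht.1, ← intervalIntegral.integral_smul]
    refine intervalIntegral.integral_congr fun x _ => ?_
    simp only [slope_def_module, map_sub, Complex.real_smul, map_mul, Complex.conj_ofReal]
    ring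
  refine Tendsto.congr' hev ?_
  refine intervalIntegral.tendsto_integral_filter_of_dominated_convergence
    (fun _ => B * (M / (ρ / 2)) + M / (ρ / 2) * B) ?_ ?_ ?_ ?_
  · filter_upwards [self_mem_nhdsWithin] with t ht
    have hc : Continuous (fun x : ℝ => slope (fun u => φ (x:ℂ) u) s t) := by
      simp only [slope_def_module]
      exact ((cont_x hρ h.sh ht.1).sub (cont_x hρ h.sh hs)).const_smul _
    exact ((hc.mul (hcc.comp (cont_dz hρ h.sh ht.1))).sub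
      ((cont_dz hρ h.sh hs).mul (hcc.comp hc))).aestronglyMeasurable
  · filter_upwards [self_mem_nhdsWithin] with t ht
    refine Filter.Eventually.of_forall fun x hx => ?_
    rw [uIoc_of_le zero_le_one] at hx
    have hx' : x ∈ Icc (0:ℝ) 1 := ⟨hx.1.le, hx.2⟩
    have hsl : ‖slope (fun u => φ (x:ℂ) u) s t‖ ≤ B := by
      have h1 := (convex_Icc (0:ℝ) 1).norm_image_sub_le_of_norm_hasDerivWithin_le
        (f := fun u => φ (x:ℂ) u) (fun u hu => hder x hx' u hu) (fun u hu => hD x hx' u hu)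
        hs ht.1
      have hts : t - s ≠ 0 := sub_ne_zero.2 (fun h => ht.2 h)
      have hts' : 0 < ‖t - s‖ := norm_pos_iff.2 hts
      rw [slope_def_module, norm_smul, norm_inv]
      calc ‖t - s‖⁻¹ * ‖φ (x:ℂ) t - φ (x:ℂ) s‖ ≤ ‖t - s‖⁻¹ * (B * ‖t - s‖) := by gcongr
        _ = B := by field_simp
    calc ‖slope (fun u => φ (x:ℂ) u) s t * conj (dz φ (x:ℂ) t)
        - dz φ (x:ℂ) s * conj (slope (fun u => φ (x:ℂ) u) s t)‖
        ≤ ‖slope (fun u => φ (x:ℂ) u) s t * conj (dz φ (x:ℂ) t)‖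
          + ‖dz φ (x:ℂ) s * conj (slope (fun u => φ (x:ℂ) u) s t)‖ := norm_sub_le _ _
      _ = ‖slope (fun u => φ (x:ℂ) u) s t‖ * ‖dz φ (x:ℂ) t‖
          + ‖dz φ (x:ℂ) s‖ * ‖slope (fun u => φ (x:ℂ) u) s t‖ := by
            rw [norm_mul, norm_mul, RCLike.norm_conj, RCLike.norm_conj]
      _ ≤ B * (M / (ρ / 2)) + M / (ρ / 2) * B := by
          gcongr
          · exact hz x hx' t ht.1
          · exact hz x hx' s hs
  · exact intervalIntegrable_const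
  · refine Filter.Eventually.of_forall fun x hx => ?_
    rw [uIoc_of_le zero_le_one] at hx
    have hx' : x ∈ Icc (0:ℝ) 1 := ⟨hx.1.le, hx.2⟩
    have h1 : Tendsto (fun t => slope (fun u => φ (x:ℂ) u) s t) (𝓝[Icc (0:ℝ) 1 \ {s}] s)
        (𝓝 (DD φ w e τ (x:ℂ) s)) := hasDerivWithinAt_iff_tendsto_slope.1 (hder x hx' s hs)
    have h2 : Tendsto (fun t => dz φ (x:ℂ) t) (𝓝[Icc (0:ℝ) 1 \ {s}] s)
        (𝓝 (dz φ (x:ℂ) s)) :=
      (tendsto_dz hρ h.sh hs hx').mono_left (nhdsWithin_mono _ sdiff_subset)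
    exact (h1.mul ((hcc.tendsto _).comp h2)).sub
      (tendsto_const_nhds.mul ((hcc.tendsto _).comp h1))

/-- the energy -/
noncomputable def JJ (φ w : ℂ → ℝ → ℂ) (s : ℝ) : ℝ :=
  ∫ x in (0:ℝ)..1, (w (x:ℂ) s).im * ‖dz φ (x:ℂ) s‖ ^ 2

theorem int_dz (hρ : 0 < ρ) (h : SH φ ρ) {s : ℝ} (hs : s ∈ Icc (0:ℝ) 1) :
    ∫ x in (0:ℝ)..1, dz φ (x:ℂ) s = 0 := by
  rw [intervalIntegral.integral_eq_sub_of_hasDerivAt (fun x _ => hasDerivAt_x hρ h x hs)
    ((cont_dz hρ h hs).intervalIntegrable _ _)]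
  have := h.per ((0:ℝ):ℂ) (real_mem_Str hρ 0) s hs
  rw [← this, sub_eq_zero]; norm_num

theorem deriv_val (hρ : 0 < ρ) (hτ : 0 < τ) (hw : SH w ρ) (h : SH φ ρ) {s : ℝ}
    (hs : s ∈ Icc (0:ℝ) 1) :
    (∫ x in (0:ℝ)..1, (DD φ w e τ (x:ℂ) s * conj (dz φ (x:ℂ) s)
      - dz φ (x:ℂ) s * conj (DD φ w e τ (x:ℂ) s))) = ((-(2 / τ) * JJ φ w s : ℝ) : ℂ) * I := by
  have hcc : Continuous (fun z : ℂ => conj z) := Complex.continuous_conj
  have c1 := cont_dz hρ h hs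
  have c2 := cont_x hρ hw hs
  have hτ' : (τ : ℂ) ≠ 0 := by exact_mod_cast hτ.ne'
  have hpt : ∀ x : ℝ, (DD φ w e τ (x:ℂ) s * conj (dz φ (x:ℂ) s)
      - dz φ (x:ℂ) s * conj (DD φ w e τ (x:ℂ) s))
      = ((((-(2 / τ)) * ((w (x:ℂ) s).im * ‖dz φ (x:ℂ) s‖ ^ 2) : ℝ)) : ℂ) * I
        - (e / τ) * conj (dz φ (x:ℂ) s) + conj e / τ * dz φ (x:ℂ) s := by
    intro x
    unfold DD
    have h1 : dz φ (x:ℂ) s * conj (dz φ (x:ℂ) s) = ((‖dz φ (x:ℂ) s‖ ^ 2 : ℝ) : ℂ) := by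
      rw [Complex.mul_conj, Complex.normSq_eq_norm_sq]
    have h2 : w (x:ℂ) s - conj (w (x:ℂ) s) = 2 * ((w (x:ℂ) s).im : ℂ) * I := by
      rw [Complex.sub_conj]; push_cast; ring
    simp only [map_sub, map_div₀, map_zero, map_mul, Complex.conj_ofReal]
    have h3 : (0 - w (x:ℂ) s * dz φ (x:ℂ) s - e) / τ * conj (dz φ (x:ℂ) s)
      - dz φ (x:ℂ) s * ((0 - conj (w (x:ℂ) s) * conj (dz φ (x:ℂ) s) - conj e) / τ)
      = -(1 / τ) * ((w (x:ℂ) s - conj (w (x:ℂ) s)) * (dz φ (x:ℂ) s * conj (dz φ (x:ℂ) s)))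
        - (e / τ) * conj (dz φ (x:ℂ) s) + conj e / τ * dz φ (x:ℂ) s := by ring
    rw [h3, h1, h2]
    push_cast
    ring
  simp_rw [hpt]
  have j1 : IntervalIntegrable (fun x : ℝ =>
      ((((-(2 / τ)) * ((w (x:ℂ) s).im * ‖dz φ (x:ℂ) s‖ ^ 2) : ℝ)) : ℂ) * I) volume 0 1 :=
    ((Complex.continuous_ofReal.comp (continuous_const.mul
      ((Complex.continuous_im.comp c2).mul (c1.norm.pow 2)))).mul
      continuous_const).intervalIntegrable _ _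
  have j2 : IntervalIntegrable (fun x : ℝ => (e / τ) * conj (dz φ (x:ℂ) s)) volume 0 1 :=
    (continuous_const.mul (hcc.comp c1)).intervalIntegrable _ _
  have j3 : IntervalIntegrable (fun x : ℝ => conj e / τ * dz φ (x:ℂ) s) volume 0 1 :=
    (continuous_const.mul c1).intervalIntegrable _ _
  rw [intervalIntegral.integral_add (j1.sub j2) j3, intervalIntegral.integral_sub j1 j2,
    intervalIntegral.integral_const_mul, intervalIntegral.integral_const_mul,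
    intervalIntegral.integral_mul_const, intervalIntegral.integral_ofReal,
    intervalIntegral.integral_const_mul, int_dz hρ h hs]
  have j4 : ∫ x in (0:ℝ)..1, conj (dz φ (x:ℂ) s) = 0 := by
    have := intervalIntegral.intervalIntegral_eq_integral_uIoc (fun x : ℝ => conj (dz φ (x:ℂ) s))
      0 1 volume
    have h5 := int_dz hρ h hs
    rw [intervalIntegral.integral_of_le zero_le_one] at h5 ⊢
    rw [integral_conj, h5, map_zero]
  rw [j4]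
  unfold JJ
  simp

theorem JJ_zero (hρ : 0 < ρ) (hτ : 0 < τ) (hw : SH w ρ)
    (hpos : ∀ x : ℝ, ∀ t ∈ Icc (0:ℝ) 1, 0 < (w (x : ℂ) t).im)
    (h : LSol φ w (fun _ _ => 0) e τ ρ) {s : ℝ} (hs : s ∈ Icc (0:ℝ) 1) :
    JJ φ w s = 0 := by
  have hJ : ∀ t ∈ Icc (0:ℝ) 1, 0 ≤ JJ φ w t := by
    intro t ht
    refine intervalIntegral.integral_nonneg zero_le_one fun x _ => ?_
    have := (hpos x t ht).le
    positivity
  have hd : ∀ t ∈ Icc (0:ℝ) 1, HasDerivWithinAt (fun t => (QQ φ t).im)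
      (-(2 / τ) * JJ φ w t) (Icc (0:ℝ) 1) t := by
    intro t ht
    have h1 := QQ_deriv hρ hτ hw h ht
    rw [deriv_val hρ hτ hw h.sh ht] at h1
    have h2 := Complex.imCLM.hasFDerivAt.comp_hasDerivWithinAt t h1
    have h3 : Complex.imCLM (((-(2 / τ) * JJ φ w t : ℝ) : ℂ) * I) = -(2 / τ) * JJ φ w t := by
      rw [Complex.imCLM_apply, Complex.im_ofReal_mul, Complex.I_im, mul_one]
    rw [h3] at h2
    exact h2
  have hanti : AntitoneOn (fun t => (QQ φ t).im) (Icc (0:ℝ) 1) := by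
    refine antitoneOn_of_hasDerivWithinAt_nonpos (convex_Icc 0 1)
      (fun t ht => (hd t ht).continuousWithinAt)
      (f' := fun t => -(2 / τ) * JJ φ w t) ?_ ?_
    · intro t ht
      exact (hd t (interior_subset ht)).mono interior_subset
    · intro t ht
      have h1 := hJ t (interior_subset ht)
      have h2 : 0 < 2 / τ := by positivity
      have h3 := mul_nonneg h2.le h1
      linarith
  have h01 : QQ φ 1 = QQ φ 0 := by
    unfold QQ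
    refine intervalIntegral.integral_congr fun x _ => ?_
    have h1 : φ (x:ℂ) 1 = φ (x:ℂ) 0 := h.close _ (real_mem_Str hρ x)
    have h2 : dz φ (x:ℂ) 1 = dz φ (x:ℂ) 0 := by
      unfold dz
      refine Filter.EventuallyEq.deriv_eq ?_
      filter_upwards [(isOpen_Str ρ).mem_nhds (real_mem_Str hρ x)] with z hz
      exact h.close z hz
    simp only [h1, h2]
  have h0 : (0:ℝ) ∈ Icc (0:ℝ) 1 := ⟨le_rfl, zero_le_one⟩
  have h1 : (1:ℝ) ∈ Icc (0:ℝ) 1 := ⟨zero_le_one, le_rfl⟩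
  have hconst : ∀ t ∈ Icc (0:ℝ) 1, (QQ φ t).im = (QQ φ 0).im := by
    intro t ht
    refine le_antisymm (hanti h0 ht ht.1) ?_
    have := hanti ht h1 ht.2
    simp only [h01] at this
    exact this
  have hd0 : HasDerivWithinAt (fun t => (QQ φ t).im) 0 (Icc (0:ℝ) 1) s :=
    (hasDerivWithinAt_const s (Icc (0:ℝ) 1) ((QQ φ 0).im)).congr hconst (hconst s hs)
  have hu : UniqueDiffWithinAt ℝ (Icc (0:ℝ) 1) s := uniqueDiffOn_Icc zero_lt_one s hs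
  have h3 : -(2 / τ) * JJ φ w s = 0 := by
    rw [← (hd s hs).derivWithin hu, hd0.derivWithin hu]
  have h2 : 0 < 2 / τ := by positivity
  rcases mul_eq_zero.1 h3 with h4 | h4
  · linarith
  · exact h4

theorem dz_zero (hρ : 0 < ρ) (hτ : 0 < τ) (hw : SH w ρ)
    (hpos : ∀ x : ℝ, ∀ t ∈ Icc (0:ℝ) 1, 0 < (w (x : ℂ) t).im)
    (h : LSol φ w (fun _ _ => 0) e τ ρ) {s : ℝ} (hs : s ∈ Icc (0:ℝ) 1) (x : ℝ) :
    dz φ (x:ℂ) s = 0 := by
  have hx01 : ∀ x ∈ Icc (0:ℝ) 1, dz φ (x:ℂ) s = 0 := by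
    intro x hx
    by_contra hne
    have h1 : 0 < JJ φ w s := by
      unfold JJ
      refine intervalIntegral.integral_pos zero_lt_one ?_ ?_ ?_
      · exact ((Complex.continuous_im.comp (cont_x hρ hw hs)).mul
          ((cont_dz hρ h.sh hs).norm.pow 2)).continuousOn
      · intro y _
        have := (hpos y s hs).le
        positivity
      · refine ⟨x, hx, ?_⟩
        have h2 := hpos x s hs
        have h3 : 0 < ‖dz φ (x:ℂ) s‖ := norm_pos_iff.2 hne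
        positivity
    rw [JJ_zero hρ hτ hw hpos h hs] at h1
    exact lt_irrefl _ h1
  have hper : Function.Periodic (fun x : ℝ => dz φ (x:ℂ) s) 1 := by
    intro x
    have := per_dz h.sh (real_mem_Str hρ x) hs
    simp only [Complex.ofReal_add, Complex.ofReal_one]
    exact this
  obtain ⟨y, hy, hxy⟩ := hper.exists_mem_Ico₀ zero_lt_one x
  exact hxy.trans (hx01 y ⟨hy.1, hy.2.le⟩)

/-- **Energy identity**: uniqueness for the linear problem. -/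
theorem ft_uniq : Pool.Agent.Helper76.FT.GUniq := by
  intro ρ τ hρ hτ w φ e hw hpos h
  refine ⟨?_, fun x t ht => dz_zero hρ hτ hw hpos h ht x⟩
  have h0 : (0:ℝ) ∈ Icc (0:ℝ) 1 := ⟨le_rfl, zero_le_one⟩
  have h1 : (1:ℝ) ∈ Icc (0:ℝ) 1 := ⟨zero_le_one, le_rfl⟩
  have hτ' : (τ : ℂ) ≠ 0 := by exact_mod_cast hτ.ne'
  have hd : ∀ t ∈ Icc (0:ℝ) 1, HasDerivWithinAt
      (fun u => φ ((0:ℝ):ℂ) u + (u : ℂ) * (e / τ)) 0 (Icc (0:ℝ) 1) t := by
    intro t ht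
    have h2 := h.eq ((0:ℝ):ℂ) (real_mem_Str hρ 0) t ht
    rw [dz_zero hρ hτ hw hpos h ht 0] at h2
    have h3 : HasDerivWithinAt (fun u : ℝ => (u : ℂ) * (e / τ)) (1 * (e / τ))
        (Icc (0:ℝ) 1) t :=
      ((hasDerivAt_id t).ofReal_comp.mul_const (e / τ)).hasDerivWithinAt
    have h4 := h2.add h3
    have h5 : ((0:ℂ) - w ((0:ℝ):ℂ) t * 0 - e) / τ + 1 * (e / τ) = 0 := by
      field_simp; ring
    rw [h5] at h4
    exact h4
  have h6 := (convex_Icc (0:ℝ) 1).norm_image_sub_le_of_norm_hasDerivWithin_le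
    (C := 0) hd (fun t _ => by simp) h0 h1
  rw [zero_mul] at h6
  have h7 := norm_le_zero_iff.1 h6
  rw [h.close _ (real_mem_Str hρ 0)] at h7
  have h8 : e / τ = 0 := by
    have : φ ((0:ℝ):ℂ) 0 + ((1:ℝ):ℂ) * (e / τ) - (φ ((0:ℝ):ℂ) 0 + ((0:ℝ):ℂ) * (e / τ)) = e / τ := by
      push_cast; ring
    rw [← this]; exact h7
  exact (div_eq_zero_iff.1 h8).resolve_right hτ'

end Pool.Agent.Helper94.FT
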