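import Pool.Agent.Helper76.FT.GoalsG
import Pool.Agent.Helper94.FT.Uniq

/-!
# MP_39e2b7_an, packet FT-FLUX: flux through a straight segment
-/

set_option autoImplicit false

namespace Pool.Agent.Helper94.FT

open Complex Set MeasureTheory Filter Topology Pool.Agent.Helper76.FT
open scoped Interval

section flux

variable {P E : ℂ → ℝ → ℂ} {ρ : ℝ}

/-- global bound for the `z`-derivative on the real line -/
theorem exists_dz_bd (hρ : 0 < ρ) (h : SH E ρ) : ∃ C : ℝ, 0 ≤ C ∧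
    ∀ x : ℝ, ∀ t ∈ Icc (0:ℝ) 1, ‖dz E (x:ℂ) t‖ ≤ C := by
  obtain ⟨M, hM0, hM⟩ := exists_bd hρ h
  have hr : 0 < ρ / 2 := by linarith
  refine ⟨M / (ρ / 2), by positivity, fun x t ht => ?_⟩
  have hper : Function.Periodic (fun x : ℝ => dz E (x:ℂ) t) 1 := by
    intro x
    have := per_dz h (real_mem_Str hρ x) ht
    simp only [Complex.ofReal_add, Complex.ofReal_one]
    exact this
  obtain ⟨y, hy, hxy⟩ := hper.exists_mem_Ico₀ zero_lt_one x
  have h2 : dz E (x:ℂ) t = dz E (y:ℂ) t := hxy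
  rw [h2]
  exact deriv_bd (f := fun z => E z t) hr (by linarith) (h.hol t ht) ⟨hy.1, hy.2.le⟩
    (fun z hz => hM z hz t ht)

/-- continuity in time on the whole real line -/
theorem tendsto_dz' (hρ : 0 < ρ) (h : SH E ρ) {s : ℝ} (hs : s ∈ Icc (0:ℝ) 1) (x : ℝ) :
    Tendsto (fun t => dz E (x:ℂ) t) (𝓝[Icc (0:ℝ) 1] s) (𝓝 (dz E (x:ℂ) s)) := by
  -- translate to `[0, 1]`
  have hk : ∀ n : ℕ, ∀ x : ℝ, ∀ t ∈ Icc (0:ℝ) 1,
      dz E ((x + n : ℝ) : ℂ) t = dz E (x:ℂ) t := by
    intro n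
    induction n with
    | zero => intro x t _; simp
    | succ n ih =>
      intro x t ht
      have h1 := per_dz h (real_mem_Str hρ (x + n)) ht
      have h2 : ((x + (n + 1 : ℕ) : ℝ) : ℂ) = ((x + n : ℝ) : ℂ) + 1 := by push_cast; ring
      rw [h2, h1, ih x t ht]
  have hfr : ∀ t ∈ Icc (0:ℝ) 1, dz E (x:ℂ) t = dz E ((Int.fract x : ℝ) : ℂ) t := by
    intro t ht
    rcases le_or_gt 0 ⌊x⌋ with h0 | h0
    · obtain ⟨n, hn⟩ := Int.eq_ofNat_of_zero_le h0
      have := hk n (Int.fract x) t ht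
      rw [← this]
      congr 2
      have h3 := Int.fract_add_floor x
      rw [hn] at h3
      push_cast at h3 ⊢
      exact h3.symm
    · obtain ⟨n, hn⟩ := Int.eq_ofNat_of_zero_le (by omega : 0 ≤ -⌊x⌋)
      have := hk n x t ht
      rw [← this]
      congr 2
      have h3 := Int.fract_add_floor x
      have h4 : (⌊x⌋ : ℝ) = -(n : ℝ) := by
        have : ⌊x⌋ = -(n : ℤ) := by omega
        rw [this]; push_cast; ring
      rw [h4] at h3
      linarith
  have hx : Int.fract x ∈ Icc (0:ℝ) 1 := ⟨Int.fract_nonneg x, (Int.fract_lt_one x).le⟩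
  have h1 := tendsto_dz hρ h hs hx
  rw [hfr s hs]
  refine h1.congr' ?_
  filter_upwards [self_mem_nhdsWithin] with t ht
  exact (hfr t ht).symm

/-- primitive -/
noncomputable def AA (P : ℂ → ℝ → ℂ) (x t : ℝ) : ℂ := ∫ y in (0:ℝ)..x, P (y : ℂ) t

theorem AA_time (hρ : 0 < ρ) (hP : SH P ρ) (hE : SH E ρ)
    (hd : ∀ z ∈ Str ρ, ∀ t ∈ Icc (0:ℝ) 1,
      HasDerivWithinAt (fun s => P z s) (-dz E z t) (Icc (0:ℝ) 1) t)
    (x : ℝ) {s : ℝ} (hs : s ∈ Icc (0:ℝ) 1) :
    HasDerivWithinAt (fun t => AA P x t) (-(E (x:ℂ) s - E ((0:ℝ):ℂ) s)) (Icc (0:ℝ) 1) s := by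
  obtain ⟨C, hC0, hC⟩ := exists_dz_bd hρ hE
  have hval : (-(E (x:ℂ) s - E ((0:ℝ):ℂ) s)) = ∫ y in (0:ℝ)..x, -dz E (y:ℂ) s := by
    rw [intervalIntegral.integral_neg,
      intervalIntegral.integral_eq_sub_of_hasDerivAt (fun y _ => hasDerivAt_x hρ hE y hs)
      ((cont_dz hρ hE hs).intervalIntegrable _ _)]
  rw [hval, hasDerivWithinAt_iff_tendsto_slope]
  have hev : ∀ᶠ t in 𝓝[Icc (0:ℝ) 1 \ {s}] s, (∫ y in (0:ℝ)..x,
      slope (fun u => P (y:ℂ) u) s t) = slope (fun t => AA P x t) s t := by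
    filter_upwards [self_mem_nhdsWithin] with t ht
    rw [slope_def_module]
    unfold AA
    rw [← intervalIntegral.integral_sub ((cont_x hρ hP ht.1).intervalIntegrable _ _)
      ((cont_x hρ hP hs).intervalIntegrable _ _), ← intervalIntegral.integral_smul]
    refine intervalIntegral.integral_congr fun y _ => ?_
    simp only [slope_def_module]
  refine Tendsto.congr' hev ?_
  refine intervalIntegral.tendsto_integral_filter_of_dominated_convergence
    (fun _ => C) ?_ ?_ ?_ ?_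
  · filter_upwards [self_mem_nhdsWithin] with t ht
    have hc : Continuous (fun y : ℝ => slope (fun u => P (y:ℂ) u) s t) := by
      simp only [slope_def_module]
      exact ((cont_x hρ hP ht.1).sub (cont_x hρ hP hs)).const_smul _
    exact hc.aestronglyMeasurable
  · filter_upwards [self_mem_nhdsWithin] with t ht
    refine Filter.Eventually.of_forall fun y _ => ?_
    have h1 := (convex_Icc (0:ℝ) 1).norm_image_sub_le_of_norm_hasDerivWithin_le
      (f := fun u => P (y:ℂ) u) (f' := fun u => -dz E (y:ℂ) u) (C := C)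
      (fun u hu => hd _ (real_mem_Str hρ y) u hu) (fun u hu => by
        rw [norm_neg]; exact hC y u hu) hs ht.1
    have hts : t - s ≠ 0 := sub_ne_zero.2 (fun h => ht.2 h)
    have hts' : 0 < ‖t - s‖ := norm_pos_iff.2 hts
    rw [slope_def_module, norm_smul, norm_inv]
    calc ‖t - s‖⁻¹ * ‖P (y:ℂ) t - P (y:ℂ) s‖ ≤ ‖t - s‖⁻¹ * (C * ‖t - s‖) := by gcongr
      _ = C := by field_simp
  · exact intervalIntegrable_const
  · refine Filter.Eventually.of_forall fun y _ => ?_
    exact hasDerivWithinAt_iff_tendsto_slope.1 (hd _ (real_mem_Str hρ y) s hs)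

theorem AA_line (hρ : 0 < ρ) (hP : SH P ρ) (hE : SH E ρ)
    (hd : ∀ z ∈ Str ρ, ∀ t ∈ Icc (0:ℝ) 1,
      HasDerivWithinAt (fun s => P z s) (-dz E z t) (Icc (0:ℝ) 1) t)
    (x v : ℝ) {t : ℝ} (ht : t ∈ Icc (0:ℝ) 1) :
    HasDerivWithinAt (fun s => AA P (x + s * v) s)
      (v * P ((x + t * v : ℝ) : ℂ) t - (E ((x + t * v : ℝ) : ℂ) t - E ((0:ℝ):ℂ) t))
      (Icc (0:ℝ) 1) t := by
  have h1 := AA_time hρ hP hE hd (x + t * v) ht
  -- the remainder
  have h2 : HasDerivWithinAt (fun s => ∫ y in (x + t * v)..(x + s * v), P (y:ℂ) s)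
      (v * P ((x + t * v : ℝ) : ℂ) t) (Icc (0:ℝ) 1) t := by
    rw [hasDerivWithinAt_iff_isLittleO, Asymptotics.isLittleO_iff]
    intro c hc
    have hc' : 0 < c / (|v| + 1) := by positivity
    have hcont : ContinuousWithinAt (fun q : ℝ × ℝ => P (q.1 : ℂ) q.2)
        (univ ×ˢ Icc (0:ℝ) 1) (x + t * v, t) := by
      have h3 : ContinuousWithinAt (fun q : ℂ × ℝ => P q.1 q.2) (Str ρ ×ˢ Icc (0:ℝ) 1)
          (((x + t * v : ℝ) : ℂ), t) := hP.cont _ ⟨real_mem_Str hρ _, ht⟩
      have h4 : ContinuousWithinAt (fun q : ℝ × ℝ => (((q.1 : ℝ) : ℂ), q.2))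
          (univ ×ˢ Icc (0:ℝ) 1) (x + t * v, t) :=
        (Continuous.prodMk (Complex.continuous_ofReal.comp continuous_fst)
          continuous_snd).continuousWithinAt
      have h5 : MapsTo (fun q : ℝ × ℝ => (((q.1 : ℝ) : ℂ), q.2)) (univ ×ˢ Icc (0:ℝ) 1)
          (Str ρ ×ˢ Icc (0:ℝ) 1) := by
        rintro ⟨y, s⟩ ⟨_, hs⟩
        exact ⟨real_mem_Str hρ _, hs⟩
      exact ContinuousWithinAt.comp (x := (x + t * v, t))
        (f := fun q : ℝ × ℝ => (((q.1 : ℝ) : ℂ), q.2))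
        (g := fun q : ℂ × ℝ => P q.1 q.2) h3 h4 h5
    rw [Metric.continuousWithinAt_iff] at hcont
    obtain ⟨η, hη, hη2⟩ := hcont _ hc'
    have hev : ∀ᶠ s in 𝓝[Icc (0:ℝ) 1] t, |s - t| < η / (|v| + 1) := by
      have : Metric.ball t (η / (|v| + 1)) ∈ 𝓝 t := Metric.ball_mem_nhds _ (by positivity)
      filter_upwards [mem_nhdsWithin_of_mem_nhds this] with s hs
      rwa [Metric.mem_ball, Real.dist_eq] at hs
    filter_upwards [hev, self_mem_nhdsWithin] with s hs hs1
    have hv1 : 0 < |v| + 1 := by positivity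
    have hst : |s - t| * (|v| + 1) < η := by rwa [lt_div_iff₀ hv1] at hs
    have hb : ∀ y ∈ Ι (x + t * v) (x + s * v),
        ‖P (y:ℂ) s - P ((x + t * v : ℝ) : ℂ) t‖ ≤ c / (|v| + 1) := by
      intro y hy
      have hy2 : |y - (x + t * v)| ≤ |s - t| * |v| := by
        have h5 : |(x + s * v) - (x + t * v)| = |s - t| * |v| := by
          rw [← abs_mul]; congr 1; ring
        rw [← h5]
        rcases le_total (x + t * v) (x + s * v) with h6 | h6
        · rw [uIoc_of_le h6] at hy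
          rw [abs_of_nonneg (by linarith [hy.1]), abs_of_nonneg (by linarith)]
          linarith [hy.2]
        · rw [uIoc_of_ge h6] at hy
          rw [abs_of_nonpos (by linarith [hy.2]), abs_of_nonpos (by linarith)]
          linarith [hy.1]
      have h7 : dist ((y, s) : ℝ × ℝ) (x + t * v, t) < η := by
        rw [Prod.dist_eq, Real.dist_eq, Real.dist_eq]
        refine max_lt ?_ ?_
        · refine lt_of_le_of_lt hy2 (lt_of_le_of_lt ?_ hst)
          exact mul_le_mul_of_nonneg_left (by linarith) (abs_nonneg _)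
        · refine lt_of_le_of_lt ?_ hst
          have : 0 ≤ |v| := abs_nonneg v
          nlinarith [abs_nonneg (s - t)]
      have h8 := hη2 (x := (y, s)) ⟨mem_univ _, hs1⟩ h7
      rw [dist_eq_norm] at h8
      exact h8.le
    have h9 : (∫ y in (x + t * v)..(x + s * v), P (y:ℂ) s)
        - (∫ y in (x + t * v)..(x + t * v), P (y:ℂ) t)
        - (s - t) • ((v : ℂ) * P ((x + t * v : ℝ) : ℂ) t)
        = ∫ y in (x + t * v)..(x + s * v), (P (y:ℂ) s - P ((x + t * v : ℝ) : ℂ) t) := by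
      rw [intervalIntegral.integral_same, sub_zero,
        intervalIntegral.integral_sub ((cont_x hρ hP hs1).intervalIntegrable _ _)
        intervalIntegrable_const, intervalIntegral.integral_const]
      simp only [Complex.real_smul]
      push_cast
      ring
    rw [h9]
    refine (intervalIntegral.norm_integral_le_of_norm_le_const hb).trans ?_
    have h10 : |(x + s * v) - (x + t * v)| = |s - t| * |v| := by
      rw [← abs_mul]; congr 1; ring
    rw [h10, Real.norm_eq_abs]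
    have h11 : |v| / (|v| + 1) ≤ 1 := by rw [div_le_one hv1]; linarith
    calc c / (|v| + 1) * (|s - t| * |v|) = c * |s - t| * (|v| / (|v| + 1)) := by ring
      _ ≤ c * |s - t| * 1 := by gcongr
      _ = c * |s - t| := by ring
  have h3 := h1.add h2
  have h4 : (-(E ((x + t * v : ℝ) : ℂ) t - E ((0:ℝ):ℂ) t) + v * P ((x + t * v : ℝ) : ℂ) t)
      = (v * P ((x + t * v : ℝ) : ℂ) t - (E ((x + t * v : ℝ) : ℂ) t - E ((0:ℝ):ℂ) t)) := by ring
  rw [h4] at h3
  refine h3.congr_of_mem ?_ ht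
  intro s hs
  simp only [AA, Pi.add_apply]
  rw [intervalIntegral.integral_add_adjacent_intervals
    ((cont_x hρ hP hs).intervalIntegrable _ _) ((cont_x hρ hP hs).intervalIntegrable _ _)]

theorem cont_line (hρ : 0 < ρ) (hP : SH P ρ) (x v : ℝ) :
    ContinuousOn (fun s : ℝ => P ((x + s * v : ℝ) : ℂ) s) (Icc (0:ℝ) 1) := by
  refine hP.cont.comp (f := fun s : ℝ => (((x + s * v : ℝ) : ℂ), s)) ?_ ?_
  · refine Continuous.continuousOn (Continuous.prodMk ?_ continuous_id)
    exact Complex.continuous_ofReal.comp (continuous_const.add (continuous_id.mul continuous_const))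
  · intro s hs
    exact ⟨real_mem_Str hρ _, hs⟩

theorem flux_id (hρ : 0 < ρ) (hP : SH P ρ) (hE : SH E ρ)
    (hd : ∀ z ∈ Str ρ, ∀ t ∈ Icc (0:ℝ) 1,
      HasDerivWithinAt (fun s => P z s) (-dz E z t) (Icc (0:ℝ) 1) t)
    (hcl : ∀ z ∈ Str ρ, P z 1 = P z 0) (x v : ℝ) :
    (∫ y in x..(x + v), P (y:ℂ) 0) - ∫ s in (0:ℝ)..1, E ((0:ℝ):ℂ) s
      = ∫ s in (0:ℝ)..1, (v * P ((x + s * v : ℝ) : ℂ) s - E ((x + s * v : ℝ) : ℂ) s) := by
  have c1 := cont_line hρ hP x v
  have c2 := cont_line hρ hE x v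
  have c3 : ContinuousOn (fun s : ℝ => E ((0:ℝ):ℂ) s) (Icc (0:ℝ) 1) := by
    have := cont_line hρ hE 0 0
    simpa using this
  have h01 : (0:ℝ) ∈ Icc (0:ℝ) 1 := ⟨le_rfl, zero_le_one⟩
  have i1 : IntervalIntegrable
      (fun s : ℝ => (v : ℂ) * P ((x + s * v : ℝ) : ℂ) s - E ((x + s * v : ℝ) : ℂ) s)
      volume 0 1 := by
    refine ContinuousOn.intervalIntegrable ?_
    rw [uIcc_of_le zero_le_one]
    exact (continuousOn_const.mul c1).sub c2
  have i2 : IntervalIntegrable (fun s : ℝ => E ((0:ℝ):ℂ) s) volume 0 1 := by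
    refine ContinuousOn.intervalIntegrable ?_
    rw [uIcc_of_le zero_le_one]
    exact c3
  have hF := intervalIntegral.integral_eq_sub_of_hasDerivAt_of_le (a := (0:ℝ)) (b := 1)
    zero_le_one
    (f := fun s => AA P (x + s * v) s)
    (f' := fun s => v * P ((x + s * v : ℝ) : ℂ) s
      - (E ((x + s * v : ℝ) : ℂ) s - E ((0:ℝ):ℂ) s))
    (fun s hs => (AA_line hρ hP hE hd x v hs).continuousWithinAt)
    (fun s hs => (AA_line hρ hP hE hd x v (Ioo_subset_Icc_self hs)).hasDerivAt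
      (Icc_mem_nhds hs.1 hs.2))
    (by
      have := i1.add i2
      refine this.congr ?_
      intro s _
      simp only
      ring)
  have h1 : (∫ s in (0:ℝ)..1, ((v : ℂ) * P ((x + s * v : ℝ) : ℂ) s
      - (E ((x + s * v : ℝ) : ℂ) s - E ((0:ℝ):ℂ) s)))
      = (∫ s in (0:ℝ)..1, (v * P ((x + s * v : ℝ) : ℂ) s - E ((x + s * v : ℝ) : ℂ) s))
        + ∫ s in (0:ℝ)..1, E ((0:ℝ):ℂ) s := by
    rw [← intervalIntegral.integral_add i1 i2]
    refine intervalIntegral.integral_congr fun s _ => ?_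
    ring
  rw [h1] at hF
  have h2 : AA P (x + 1 * v) 1 - AA P (x + 0 * v) 0 = ∫ y in x..(x + v), P (y:ℂ) 0 := by
    unfold AA
    have h3 : (∫ y in (0:ℝ)..(x + 1 * v), P (y:ℂ) 1) = ∫ y in (0:ℝ)..(x + v), P (y:ℂ) 0 := by
      rw [one_mul]
      refine intervalIntegral.integral_congr fun y _ => ?_
      exact hcl _ (real_mem_Str hρ y)
    rw [h3, zero_mul, add_zero, intervalIntegral.integral_interval_sub_left
      ((cont_x hρ hP h01).intervalIntegrable _ _) ((cont_x hρ hP h01).intervalIntegrable _ _)]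
  rw [h2] at hF
  rw [← hF]
  ring

end flux

/-- **Flux through a straight segment** -/
theorem ft_flux : GTorP → GFlux := by
  intro hTor S hS B
  obtain ⟨k0, M, hk0, hM, hall⟩ := hTor S hS
  refine ⟨|B| * M + M, by positivity, ?_⟩
  intro δ ρ w c hw
  obtain ⟨hP, hE, hcl, hd, _, _, hbd⟩ := hall δ ρ w c hw
  have hρ := hw.hρ
  set P : ℂ → ℝ → ℂ := fun z t => S.p t z (w z t) with hPdef
  set E : ℂ → ℝ → ℂ := fun z t => S.En t z (w z t) with hEdef
  have h01 : (0:ℝ) ∈ Icc (0:ℝ) 1 := ⟨le_rfl, zero_le_one⟩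
  have c3 : ContinuousOn (fun s : ℝ => E ((0:ℝ):ℂ) s) (Icc (0:ℝ) 1) := by
    have := cont_line hρ hE 0 0
    simpa using this
  have i2 : IntervalIntegrable (fun s : ℝ => E ((0:ℝ):ℂ) s) volume 0 1 := by
    refine ContinuousOn.intervalIntegrable ?_
    rw [uIcc_of_le zero_le_one]
    exact c3
  refine ⟨(∫ s in (0:ℝ)..1, E ((0:ℝ):ℂ) s).im, ?_, ?_⟩
  · have h1 : ‖∫ s in (0:ℝ)..1, E ((0:ℝ):ℂ) s‖ ≤ M * |1 - (0:ℝ)| := by
      refine intervalIntegral.norm_integral_le_of_norm_le_const ?_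
      intro s hs
      rw [uIoc_of_le zero_le_one] at hs
      exact (hbd 0 s ⟨hs.1.le, hs.2⟩).2.2.2.2.1
    have h2 := (Complex.abs_im_le_norm (∫ s in (0:ℝ)..1, E ((0:ℝ):ℂ) s)).trans h1
    rw [sub_zero, abs_one, mul_one] at h2
    have h3 : 0 ≤ |B| * M := by positivity
    linarith
  · intro x v hv
    have hid := flux_id hρ hP hE hd hcl x v
    have hvB : |v| ≤ |B| := hv.trans (le_abs_self B)
    have him : (∫ y in x..(x + v), (S.p 0 (y : ℂ) (w (y : ℂ) 0)).im)
        = (∫ y in x..(x + v), P (y:ℂ) 0).im := by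
      have := Complex.imCLM.intervalIntegral_comp_comm
        ((cont_x hρ hP h01).intervalIntegrable (μ := volume) x (x + v))
      simpa using this
    have hsub : (∫ y in x..(x + v), (S.p 0 (y : ℂ) (w (y : ℂ) 0)).im)
        - (∫ s in (0:ℝ)..1, E ((0:ℝ):ℂ) s).im
        = (∫ s in (0:ℝ)..1, (v * P ((x + s * v : ℝ) : ℂ) s
          - E ((x + s * v : ℝ) : ℂ) s)).im := by
      rw [him, ← Complex.sub_im, hid]
    rw [hsub]
    have c1 := cont_line hρ hP x v
    have c2 := cont_line hρ hE x v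
    have i1 : IntervalIntegrable
        (fun s : ℝ => (v : ℂ) * P ((x + s * v : ℝ) : ℂ) s - E ((x + s * v : ℝ) : ℂ) s)
        volume 0 1 := by
      refine ContinuousOn.intervalIntegrable ?_
      rw [uIcc_of_le zero_le_one]
      exact (continuousOn_const.mul c1).sub c2
    have him2 : (∫ s in (0:ℝ)..1, (v * P ((x + s * v : ℝ) : ℂ) s
          - E ((x + s * v : ℝ) : ℂ) s)).im
        = ∫ s in (0:ℝ)..1, ((v : ℂ) * P ((x + s * v : ℝ) : ℂ) s
          - E ((x + s * v : ℝ) : ℂ) s).im := by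
      have := Complex.imCLM.intervalIntegral_comp_comm i1
      simpa using this.symm
    rw [him2]
    have iw : IntervalIntegrable (fun s : ℝ => (w ((x + s * v : ℝ) : ℂ) s).im) volume 0 1 := by
      refine ContinuousOn.intervalIntegrable ?_
      rw [uIcc_of_le zero_le_one]
      exact Complex.continuous_im.comp_continuousOn (cont_line hρ hw.sh x v)
    rw [← Real.norm_eq_abs]
    refine (intervalIntegral.norm_integral_le_integral_norm zero_le_one).trans ?_
    rw [← intervalIntegral.integral_const_mul]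
    refine intervalIntegral.integral_mono_on zero_le_one ?_ ?_ ?_
    · refine ContinuousOn.intervalIntegrable ?_
      rw [uIcc_of_le zero_le_one]
      exact (Complex.continuous_im.comp_continuousOn
        ((continuousOn_const.mul c1).sub c2)).norm
    · exact iw.const_mul _
    · intro s hs
      have hb := hbd (x + s * v) s hs
      have hwp : 0 ≤ (w ((x + s * v : ℝ) : ℂ) s).im := by
        have := (hw.pos (x + s * v) s hs).1
        exact this.le
      have h1 : |(P ((x + s * v : ℝ) : ℂ) s).im| ≤ M * (w ((x + s * v : ℝ) : ℂ) s).im := by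
        rw [abs_of_nonneg]
        · exact hb.2.1
        · exact le_trans (by positivity) hb.1
      have h2 : |(E ((x + s * v : ℝ) : ℂ) s).im| ≤ M * (w ((x + s * v : ℝ) : ℂ) s).im :=
        hb.2.2.1
      have h3 : ((v : ℂ) * P ((x + s * v : ℝ) : ℂ) s - E ((x + s * v : ℝ) : ℂ) s).im
          = v * (P ((x + s * v : ℝ) : ℂ) s).im - (E ((x + s * v : ℝ) : ℂ) s).im := by
        rw [Complex.sub_im, Complex.im_ofReal_mul]
      rw [h3, Real.norm_eq_abs]
      calc |v * (P ((x + s * v : ℝ) : ℂ) s).im - (E ((x + s * v : ℝ) : ℂ) s).im|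
          ≤ |v * (P ((x + s * v : ℝ) : ℂ) s).im| + |(E ((x + s * v : ℝ) : ℂ) s).im| :=
            abs_sub _ _
        _ = |v| * |(P ((x + s * v : ℝ) : ℂ) s).im| + |(E ((x + s * v : ℝ) : ℂ) s).im| := by
            rw [abs_mul]
        _ ≤ |B| * (M * (w ((x + s * v : ℝ) : ℂ) s).im)
            + M * (w ((x + s * v : ℝ) : ℂ) s).im := by gcongr
        _ = (|B| * M + M) * (w ((x + s * v : ℝ) : ℂ) s).im := by ring

end Pool.Agent.Helper94.FT
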